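import Pool.Agent.Helper51.LT.St2

/-!
# Module WFJ of project LT (MP_d6acc2_an)
-/

set_option autoImplicit false

namespace Pool.Agent.Helper93.LT
open Finset
open Pool.Agent.Helper51.LT

theorem gj_nonneg {r : ℝ} (hr : 1 ≤ r) (j k : ℕ) : 0 ≤ gj r j k := by
  have hr0 : 0 < r := lt_of_lt_of_le one_pos hr
  unfold gj Gj
  by_cases h1 : k + 1 ≤ j
  · rw [if_pos h1, if_pos (by omega)]
    push_cast; linarith
  · by_cases h2 : k ≤ j
    · have hkj : k = j := by omega
      subst hkj
      rw [if_neg h1, if_pos le_rfl]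
      have e : k + 1 - k = 1 := by omega
      rw [e, pow_one]
      have : (0 : ℝ) ≤ (k : ℝ) := Nat.cast_nonneg k
      nlinarith
    · rw [if_neg h1, if_neg h2]
      have e : k + 1 - j = (k - j) + 1 := by omega
      rw [e, pow_succ]
      have h3 : 0 ≤ (j : ℝ) * r ^ (k - j) := mul_nonneg (Nat.cast_nonneg j) (pow_nonneg hr0.le _)
      nlinarith

theorem hWfj (hWej : StWej) : StWfj := by
  classical
  intro M j δ hj1 hjM hδ0 hδj hδ2 U X D hDs hD Λ e C₀ hΛ hX hU hE
  set r : ℝ := (2 + δ) / (2 - δ) with hr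
  have h2δ : 0 < 2 - δ := by linarith
  have hr1 : 1 ≤ r := by rw [hr, le_div_iff₀ h2δ]; linarith
  set π : Equiv.Perm (Fin M) := Tuple.sort (fun l => -U l) with hπ
  have hmono : Monotone ((fun l => -U l) ∘ π) := Tuple.monotone_sort _
  have hanti : ∀ i k : Fin M, i ≤ k → U (π k) ≤ U (π i) := by
    intro i k hik
    have := hmono hik
    simp only [Function.comp_apply] at this
    linarith
  -- extension to the naturals
  set ex : (Fin M → ℝ) → ℕ → ℝ := fun F i => if h : i < M then F (π ⟨i, h⟩) else 0 with hex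
  have hexv : ∀ (F : Fin M → ℝ) (i : Fin M), ex F i = F (π i) := by
    intro F i
    rw [hex]; simp only [i.2, dif_pos]
  set D' : ℕ → ℕ → ℝ := fun i a =>
    if h : i < M ∧ a < M then D (π ⟨i, h.1⟩) (π ⟨a, h.2⟩) else 0 with hD'
  have hD'v : ∀ i a : Fin M, D' i a = D (π i) (π a) := by
    intro i a
    rw [hD']; simp only [i.2, a.2, and_self, dif_pos]
  have hsumr : ∀ F : ℕ → ℝ, ∑ i ∈ range M, F i = ∑ i : Fin M, F i := fun F =>
    Finset.sum_range F
  refine hWej M j δ hj1 hjM hδ0 hδj hδ2 (ex U) (ex X) D' ?_ ?_ ?_ Λ e C₀ hΛ ?_ ?_ ?_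
  · intro i k hik hk
    have h1 := hanti ⟨i, by omega⟩ ⟨k, hk⟩ hik
    have h2 := hexv U ⟨i, by omega⟩
    have h3 := hexv U ⟨k, hk⟩
    simp only at h2 h3
    rw [h2, h3]; exact h1
  · intro i k
    rw [hD']
    simp only
    by_cases h : i < M ∧ k < M
    · rw [dif_pos h, dif_pos ⟨h.2, h.1⟩]; exact hDs _ _
    · rw [dif_neg h, dif_neg (fun hc => h ⟨hc.2, hc.1⟩)]
  · intro i k
    rw [hD']
    simp only
    split_ifs with h
    · exact hD _ _
    · norm_num
  · intro l hl
    have h2 := hexv X ⟨l, hl⟩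
    simp only at h2
    rw [h2]; exact hX _
  · intro l hl
    have h2 := hexv X ⟨l, hl⟩
    have h3 := hexv U ⟨l, hl⟩
    simp only at h2 h3
    rw [h2, h3, sum_erase_eq_sub (mem_range.2 hl), hsumr]
    have h4 := hU (π ⟨l, hl⟩)
    rw [sum_erase_eq_sub (mem_univ _)] at h4
    have h5 : ∑ a : Fin M, D' l a = ∑ a, D (π ⟨l, hl⟩) a := by
      rw [← Equiv.sum_comp π (fun a => D (π ⟨l, hl⟩) a)]
      apply sum_congr rfl
      intro a _
      exact hD'v ⟨l, hl⟩ a
    have h6 : D' l l = D (π ⟨l, hl⟩) (π ⟨l, hl⟩) := hD'v ⟨l, hl⟩ ⟨l, hl⟩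
    rw [h5, h6]
    exact h4
  · rw [← hr]
    have h1 := hE (fun l => gj r j (π.symm l)) (fun l => gj_nonneg hr1 _ _)
    have e1 : ∑ i ∈ range M, ∑ k ∈ range M, gj r j i * gj r j k * min (ex U i) (ex U k)
        = ∑ i, ∑ k, gj r j (π.symm i) * gj r j (π.symm k) * min (U i) (U k) := by
      rw [hsumr, ← Equiv.sum_comp π
        (fun i => ∑ k, gj r j (π.symm i) * gj r j (π.symm k) * min (U i) (U k))]
      apply sum_congr rfl
      intro i _
      rw [hsumr, ← Equiv.sum_comp π
        (fun k => gj r j (π.symm (π i)) * gj r j (π.symm k) * min (U (π i)) (U k))]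
      apply sum_congr rfl
      intro k _
      rw [hexv, hexv, Equiv.symm_apply_apply, Equiv.symm_apply_apply]
    have e2 : ∑ i ∈ range M, gj r j i ^ 2 * ex X i = ∑ i, gj r j (π.symm i) ^ 2 * X i := by
      rw [hsumr, ← Equiv.sum_comp π (fun i => gj r j (π.symm i) ^ 2 * X i)]
      apply sum_congr rfl
      intro i _
      rw [hexv, Equiv.symm_apply_apply]
    have e3 : ∑ i ∈ range M, ∑ a ∈ (range M).erase i, gj r j i * gj r j a * D' i a
        = ∑ i, ∑ a ∈ univ.erase i, gj r j (π.symm i) * gj r j (π.symm a) * D i a := by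
      have a1 : ∀ i ∈ range M, ∑ a ∈ (range M).erase i, gj r j i * gj r j a * D' i a
          = ∑ a ∈ range M, gj r j i * gj r j a * D' i a - gj r j i * gj r j i * D' i i :=
        fun i hi => sum_erase_eq_sub hi
      have a2 : ∀ i ∈ (univ : Finset (Fin M)),
          ∑ a ∈ univ.erase i, gj r j (π.symm i) * gj r j (π.symm a) * D i a
          = ∑ a, gj r j (π.symm i) * gj r j (π.symm a) * D i a
            - gj r j (π.symm i) * gj r j (π.symm i) * D i i :=
        fun i hi => sum_erase_eq_sub hi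
      rw [sum_congr rfl a1, sum_congr rfl a2, hsumr, ← Equiv.sum_comp π
        (fun i => ∑ a, gj r j (π.symm i) * gj r j (π.symm a) * D i a
            - gj r j (π.symm i) * gj r j (π.symm i) * D i i)]
      apply sum_congr rfl
      intro i _
      rw [hsumr, ← Equiv.sum_comp π
        (fun a => gj r j (π.symm (π i)) * gj r j (π.symm a) * D (π i) a), hD'v]
      simp only [Equiv.symm_apply_apply]
      congr 1
      apply sum_congr rfl
      intro a _
      rw [hD'v]
    have e4 : ∑ i ∈ range M, gj r j i = ∑ i, gj r j (π.symm i) := by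
      rw [hsumr, ← Equiv.sum_comp π (fun i => gj r j (π.symm i))]
      apply sum_congr rfl
      intro i _
      rw [Equiv.symm_apply_apply]
    rw [e1, e2, e3, e4]
    exact h1

end Pool.Agent.Helper93.LT
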